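import Mathlib

/-!
# An asymptotic `ρ`-nonregular value for all centres which is not a bifurcation value at infinity

For `f = (x² - 1)(y⁹ + 3 x² y³ - 9 x y² + 9 y) - 3 x` on `ℝ²` we have
`∂f/∂y = 9 (x² - 1)((x y - 1)² + y⁸)`, and `f = -3` on the line `x = 1`, `f = 3` on the line `x = -1`.
For every `x ≠ ±1` the map `y ↦ f(x, y)` is a diffeomorphism of `ℝ`, so over `(-3, 3)` the function
`f` is a trivial fibration, the fibre being diffeomorphic to `ℝ ∖ {±1}`.  Along the curve `x y = 1` the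
function `f` tends to `0` and its level curves become vertical in such a way that for every centre
`a` the Milnor set `M_a(f)` has a branch at infinity, asymptotic to `x y = 1`, along which `f`
tends to `0`.
-/

set_option autoImplicit false

open Filter Topology MvPolynomial
open scoped ContDiff

namespace Pool.Agent.Results.MP_025584_ag.RegularAsymptoticValue

/-- the gradient of a polynomial function on `ℝⁿ` -/
noncomputable def grad {n : ℕ} (f : MvPolynomial (Fin n) ℝ) (x : Fin n → ℝ) : Fin n → ℝ :=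
  fun i => eval x (pderiv i f)

/-- The Milnor set `M_a(f)`: the set of all `x` for which `grad f(x)` and `x - a` are linearly
dependent. -/
def milnorSet {n : ℕ} (f : MvPolynomial (Fin n) ℝ) (a : Fin n → ℝ) : Set (Fin n → ℝ) :=
  {x | ¬ LinearIndependent ℝ ![grad f x, x - a]}

/-- `S_a(f)`: the set of the limits of `f(x_j)` for sequences `x_j` in `M_a(f)` with
`‖x_j‖ → ∞`. -/
def asymptoticValues {n : ℕ} (f : MvPolynomial (Fin n) ℝ) (a : Fin n → ℝ) : Set ℝ :=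
  {t | ∃ x : ℕ → (Fin n → ℝ), (∀ j, x j ∈ milnorSet f a) ∧
    Tendsto (fun j => ‖x j‖) atTop atTop ∧ Tendsto (fun j => eval (x j) f) atTop (𝓝 t)}

/-- `S_∞(f)`, the intersection of all `S_a(f)`. -/
def asymptoticValuesAll {n : ℕ} (f : MvPolynomial (Fin n) ℝ) : Set ℝ :=
  ⋂ a, asymptoticValues f a

/-- The part of the inverse image of `I ⊆ ℝ` under `f` outside of `K`. -/
def part {n : ℕ} (f : MvPolynomial (Fin n) ℝ) (K : Set (Fin n → ℝ)) (I : Set ℝ) :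
    Set (Fin n → ℝ) :=
  {x | eval x f ∈ I ∧ x ∉ K}

/-- Over the open set `I ∋ t` the restriction of `f` to the complement of `K` is a trivial
`C^∞`-fibration with fibre `F = f⁻¹(t) ∖ K`: there is a `C^∞` retraction `r` of
`f⁻¹(I) ∖ K` to `F` such that `x ↦ (r(x), f(x))` is a bijection from `f⁻¹(I) ∖ K` to
`F × I` whose inverse `s` is (the restriction of) a `C^∞` map defined on an open set `Ω`
which contains `F × I`. -/
def IsTrivialOver {n : ℕ} (f : MvPolynomial (Fin n) ℝ) (K : Set (Fin n → ℝ)) (t : ℝ)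
    (I : Set ℝ) : Prop :=
  ∃ (r : (Fin n → ℝ) → (Fin n → ℝ)) (s : (Fin n → ℝ) × ℝ → (Fin n → ℝ))
    (Ω : Set ((Fin n → ℝ) × ℝ)),
    ContDiffOn ℝ ∞ r (part f K I) ∧ IsOpen Ω ∧ (part f K {t}) ×ˢ I ⊆ Ω ∧ ContDiffOn ℝ ∞ s Ω ∧
    (∀ x ∈ part f K I, r x ∈ part f K {t} ∧ s (r x, eval x f) = x) ∧
    (∀ p ∈ part f K {t}, ∀ u ∈ I, s (p, u) ∈ part f K I ∧ eval (s (p, u)) f = u ∧
      r (s (p, u)) = p)

/-- `f` is topologically trivial at infinity at `t₀`: there are a compact set `K` and an open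
interval `D` centred at `t₀` such that the restriction `f⁻¹(D) ∖ K → D` of `f` is a locally trivial
`C^∞`-fibration. -/
def IsTrivialAtInfinity {n : ℕ} (f : MvPolynomial (Fin n) ℝ) (t₀ : ℝ) : Prop :=
  ∃ (K : Set (Fin n → ℝ)) (δ : ℝ), IsCompact K ∧ 0 < δ ∧
    ∀ t ∈ Set.Ioo (t₀ - δ) (t₀ + δ), ∃ I : Set ℝ, IsOpen I ∧ t ∈ I ∧
      I ⊆ Set.Ioo (t₀ - δ) (t₀ + δ) ∧ IsTrivialOver f K t I

/-- `B_∞(f)`, the set of the bifurcation values at infinity. -/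
def bifurcationValues {n : ℕ} (f : MvPolynomial (Fin n) ℝ) : Set ℝ :=
  {t | ¬ IsTrivialAtInfinity f t}

/-- the polynomial `(x² - 1)(y⁹ + 3 x² y³ - 9 x y² + 9 y) - 3 x` -/
noncomputable def P : MvPolynomial (Fin 2) ℝ :=
  (X 0 ^ 2 - C 1) * (X 1 ^ 9 + C 3 * X 0 ^ 2 * X 1 ^ 3 - C 9 * X 0 * X 1 ^ 2 + C 9 * X 1) -
    C 3 * X 0

/-! ### The smooth coordinates `(x, G)` -/

/-- the function `G` -/
def G (x y : ℝ) : ℝ := y ^ 9 + 3 * x ^ 2 * y ^ 3 - 9 * x * y ^ 2 + 9 * y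

lemma eval_P (v : Fin 2 → ℝ) : eval v P = (v 0 ^ 2 - 1) * G (v 0) (v 1) - 3 * v 0 := by
  simp [P, G]

lemma grad0 (v : Fin 2 → ℝ) : grad P v 0 =
    2 * v 0 * G (v 0) (v 1) + (v 0 ^ 2 - 1) * (6 * v 0 * v 1 ^ 3 - 9 * v 1 ^ 2) - 3 := by
  unfold grad P G
  simp only [map_sub, map_add, pderiv_mul, pderiv_pow, pderiv_C, pderiv_X_self,
    pderiv_X_of_ne (show (1 : Fin 2) ≠ 0 by decide), map_mul, map_pow, eval_X, eval_C,
    map_natCast, map_one, map_zero, pderiv_one]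
  push_cast
  ring

lemma grad1 (v : Fin 2 → ℝ) : grad P v 1 =
    9 * (v 0 ^ 2 - 1) * ((v 0 * v 1 - 1) ^ 2 + v 1 ^ 8) := by
  unfold grad P
  simp only [map_sub, map_add, pderiv_mul, pderiv_pow, pderiv_C, pderiv_X_self,
    pderiv_X_of_ne (show (0 : Fin 2) ≠ 1 by decide), map_mul, map_pow, eval_X, eval_C,
    map_natCast, map_one, map_zero, pderiv_one]
  push_cast
  ring

lemma dG_pos (x y : ℝ) : 0 < 9 * ((x * y - 1) ^ 2 + y ^ 8) := by
  by_cases hy : y = 0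
  · rw [hy]; norm_num
  · have : 0 < y ^ 8 := by positivity
    have := sq_nonneg (x * y - 1)
    linarith

lemma hasDerivAt_G (x y : ℝ) : HasDerivAt (G x) (9 * ((x * y - 1) ^ 2 + y ^ 8)) y := by
  have h := (((hasDerivAt_pow 9 y).add ((hasDerivAt_pow 3 y).const_mul (3 * x ^ 2))).sub
    ((hasDerivAt_pow 2 y).const_mul (9 * x))).add ((hasDerivAt_id y).const_mul 9)
  refine (h.congr_deriv ?_)
  push_cast
  ring

lemma strictMono_G (x : ℝ) : StrictMono (G x) := by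
  apply strictMono_of_deriv_pos
  intro y
  rw [(hasDerivAt_G x y).deriv]
  exact dG_pos x y

lemma surjective_G (x : ℝ) : Function.Surjective (G x) := by
  have hc : Continuous (G x) := by unfold G; fun_prop
  have hpos : ∀ y : ℝ, 0 ≤ y → 9 / 4 * y ≤ G x y := by
    intro y hy
    unfold G
    have h1 : 0 ≤ y ^ 9 := by positivity
    have h2 : 0 ≤ y * (x * y - 3 / 2) ^ 2 := by positivity
    nlinarith
  have hneg : ∀ y : ℝ, y ≤ 0 → G x y ≤ 9 / 4 * y := by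
    intro y hy
    unfold G
    have h1 : y ^ 9 ≤ 0 := Odd.pow_nonpos (by decide) hy
    have h2 : y * (x * y - 3 / 2) ^ 2 ≤ 0 := mul_nonpos_of_nonpos_of_nonneg hy (sq_nonneg _)
    nlinarith
  intro z
  have hab : -(|z| + 1) ≤ |z| + 1 := by have := abs_nonneg z; linarith
  have h1 := hpos (|z| + 1) (by positivity)
  have h2 := hneg (-(|z| + 1)) (by have := abs_nonneg z; linarith)
  have h3 := le_abs_self z
  have h4 := neg_abs_le z
  have h5 := abs_nonneg z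
  obtain ⟨y, -, hy⟩ := intermediate_value_Icc hab hc.continuousOn
    (show z ∈ Set.Icc (G x (-(|z| + 1))) (G x (|z| + 1)) by constructor <;> linarith)
  exact ⟨y, hy⟩

/-- the inverse of `G x` -/
noncomputable def Y (x z : ℝ) : ℝ := Function.surjInv (surjective_G x) z

lemma G_Y (x z : ℝ) : G x (Y x z) = z := Function.surjInv_eq (surjective_G x) z

lemma Y_G (x y : ℝ) : Y x (G x y) = y := (strictMono_G x).injective (G_Y x _)

/-- the map `(x, y) ↦ (x, G(x, y))` -/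
def Θ (v : Fin 2 → ℝ) : Fin 2 → ℝ := ![v 0, G (v 0) (v 1)]

/-- its inverse -/
noncomputable def Ψ (w : Fin 2 → ℝ) : Fin 2 → ℝ := ![w 0, Y (w 0) (w 1)]

lemma Θ_Ψ (w : Fin 2 → ℝ) : Θ (Ψ w) = w := by
  funext i
  fin_cases i
  · rfl
  · exact G_Y (w 0) (w 1)

lemma Ψ_Θ (v : Fin 2 → ℝ) : Ψ (Θ v) = v := by
  funext i
  fin_cases i
  · rfl
  · exact Y_G (v 0) (v 1)

lemma contDiff_Θ : ContDiff ℝ ∞ Θ := by
  rw [contDiff_pi]
  intro i
  fin_cases i
  · exact contDiff_apply ℝ ℝ 0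
  · change ContDiff ℝ ∞ fun v : Fin 2 → ℝ => G (v 0) (v 1)
    unfold G
    fun_prop

/-- a triangular linear automorphism of the plane -/
noncomputable def tri (a b : ℝ) (hb : b ≠ 0) : (Fin 2 → ℝ) ≃L[ℝ] (Fin 2 → ℝ) :=
  LinearEquiv.toContinuousLinearEquiv
  { toFun := fun v => ![v 0, a * v 0 + b * v 1]
    invFun := fun w => ![w 0, (w 1 - a * w 0) / b]
    map_add' := fun v w => by
      funext i; fin_cases i
      · simp
      · simp; ring
    map_smul' := fun c v => by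
      funext i; fin_cases i
      · simp
      · simp; ring
    left_inv := fun v => by
      funext i; fin_cases i
      · simp
      · simp; field_simp
    right_inv := fun v => by
      funext i; fin_cases i
      · simp
      · simp; field_simp; ring }

lemma hasFDerivAt_Θ (v : Fin 2 → ℝ) :
    HasFDerivAt Θ (tri (6 * v 0 * v 1 ^ 3 - 9 * v 1 ^ 2) (9 * ((v 0 * v 1 - 1) ^ 2 + v 1 ^ 8))
      (dG_pos _ _).ne' : (Fin 2 → ℝ) →L[ℝ] (Fin 2 → ℝ)) v := by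
  have h0 : HasFDerivAt (fun v : Fin 2 → ℝ => v 0)
      (ContinuousLinearMap.proj (R := ℝ) (φ := fun _ : Fin 2 => ℝ) 0) v :=
    hasFDerivAt_apply 0 v
  have h1 : HasFDerivAt (fun v : Fin 2 → ℝ => v 1)
      (ContinuousLinearMap.proj (R := ℝ) (φ := fun _ : Fin 2 => ℝ) 1) v :=
    hasFDerivAt_apply 1 v
  rw [hasFDerivAt_pi']
  intro i
  fin_cases i
  · refine HasFDerivAt.congr_fderiv h0 ?_
    apply ContinuousLinearMap.ext
    intro w
    rfl
  · have h := (((h1.pow 9).add (((h0.pow 2).const_mul 3).mul (h1.pow 3))).sub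
      ((h0.const_mul 9).mul (h1.pow 2))).add (h1.const_mul 9)
    refine HasFDerivAt.congr_fderiv h ?_
    apply ContinuousLinearMap.ext
    intro w
    change _ = (6 * v 0 * v 1 ^ 3 - 9 * v 1 ^ 2) * w 0 +
      (9 * ((v 0 * v 1 - 1) ^ 2 + v 1 ^ 8)) * w 1
    simp
    ring

lemma contDiff_Ψ : ContDiff ℝ ∞ Ψ := by
  rw [contDiff_iff_contDiffAt]
  intro w
  have hf : ContDiffAt ℝ ∞ Θ (Ψ w) := contDiff_Θ.contDiffAt
  have hf' := hasFDerivAt_Θ (Ψ w)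
  have h1 := hf.to_localInverse hf' (by simp)
  rw [Θ_Ψ] at h1
  refine h1.congr_of_eventuallyEq ?_
  have h2 := (hf.hasStrictFDerivAt' hf' (by simp)).eventually_right_inverse
  rw [Θ_Ψ] at h2
  filter_upwards [h2] with y hy
  have h3 := congrArg Ψ hy
  rw [Ψ_Θ] at h3
  exact h3.symm

/-! ### `0` is not a bifurcation value at infinity -/

lemma sq_ne_one {v : Fin 2 → ℝ} (hv : eval v P ∈ Set.Ioo (-3 : ℝ) 3) : v 0 ^ 2 - 1 ≠ 0 := by
  intro h
  rw [eval_P, h, zero_mul, zero_sub] at hv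
  have h1 : (v 0 - 1) * (v 0 + 1) = 0 := by linear_combination h
  rcases mul_eq_zero.1 h1 with h2 | h2
  · have : v 0 = 1 := by linarith
    rw [this] at hv
    have := hv.1
    norm_num at this
  · have : v 0 = -1 := by linarith
    rw [this] at hv
    have := hv.2
    norm_num at this

/-- the point of the fibre over `t` with first coordinate `x` -/
noncomputable def sec (x t : ℝ) : Fin 2 → ℝ := Ψ ![x, (t + 3 * x) / (x ^ 2 - 1)]

lemma eval_sec {x t : ℝ} (hx : x ^ 2 - 1 ≠ 0) : eval (sec x t) P = t := by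
  have h0 : sec x t 0 = x := rfl
  have h1 : G (sec x t 0) (sec x t 1) = (t + 3 * x) / (x ^ 2 - 1) := by
    have := congrFun (Θ_Ψ ![x, (t + 3 * x) / (x ^ 2 - 1)]) 1
    exact this
  rw [eval_P, h1, h0]
  field_simp
  ring

lemma sec_eval {v : Fin 2 → ℝ} (hx : v 0 ^ 2 - 1 ≠ 0) : sec (v 0) (eval v P) = v := by
  have h1 : (eval v P + 3 * v 0) / (v 0 ^ 2 - 1) = G (v 0) (v 1) := by
    rw [eval_P]
    field_simp
    ring
  unfold sec
  rw [h1]
  exact Ψ_Θ v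

theorem trivial_zero : IsTrivialAtInfinity P 0 := by
  refine ⟨∅, 3, isCompact_empty, by norm_num, ?_⟩
  rw [zero_sub, zero_add]
  intro t ht
  have hsec : ContDiffOn ℝ ∞ (fun q : ℝ × ℝ => sec q.1 q.2) {q | q.1 ^ 2 - 1 ≠ 0} := by
    apply contDiff_Ψ.comp_contDiffOn
    rw [contDiffOn_pi]
    intro i
    fin_cases i
    · exact contDiff_fst.contDiffOn
    · change ContDiffOn ℝ ∞ (fun q : ℝ × ℝ => (q.2 + 3 * q.1) / (q.1 ^ 2 - 1)) _
      apply ContDiffOn.div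
      · fun_prop
      · fun_prop
      · intro q hq; exact hq
  refine ⟨Set.Ioo (-3) 3, isOpen_Ioo, ht, subset_rfl, fun v => sec (v 0) t,
    fun q => sec (q.1 0) q.2, {q | q.1 0 ^ 2 - 1 ≠ 0}, ?_, ?_, ?_, ?_, ?_, ?_⟩
  · apply hsec.comp (g := fun q : ℝ × ℝ => sec q.1 q.2) (f := fun v : Fin 2 → ℝ => (v 0, t))
    · exact ((contDiff_apply ℝ ℝ 0).prodMk contDiff_const).contDiffOn
    · intro v hv; exact sq_ne_one hv.1
  · have : Continuous fun q : (Fin 2 → ℝ) × ℝ => q.1 0 ^ 2 - 1 := by fun_prop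
    exact isOpen_ne.preimage this
  · rintro ⟨p, u⟩ ⟨hp, -⟩
    have h1 : eval p P = t := hp.1
    have h2 : eval p P ∈ Set.Ioo (-3 : ℝ) 3 := by rw [h1]; exact ht
    exact sq_ne_one h2
  · apply hsec.comp (g := fun q : ℝ × ℝ => sec q.1 q.2)
      (f := fun q : (Fin 2 → ℝ) × ℝ => (q.1 0, q.2))
    · exact (((contDiff_apply ℝ ℝ 0).comp contDiff_fst).prodMk contDiff_snd).contDiffOn
    · intro q hq; exact hq
  · intro v hv
    have h1 := sq_ne_one hv.1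
    refine ⟨⟨eval_sec h1, fun h => h⟩, ?_⟩
    change sec (v 0) (eval v P) = v
    exact sec_eval h1
  · intro p hp u hu
    have h1 : eval p P = t := hp.1
    have h2 : eval p P ∈ Set.Ioo (-3 : ℝ) 3 := by rw [h1]; exact ht
    have h3 := sq_ne_one h2
    have h4 : eval (sec (p 0) u) P = u := eval_sec h3
    refine ⟨⟨?_, fun h => h⟩, h4, ?_⟩
    · change eval (sec (p 0) u) P ∈ _
      rw [h4]; exact hu
    · change sec (p 0) t = p
      rw [← h1]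
      exact sec_eval h3

/-! ### `0` is an asymptotic nonregular value for every centre -/

/-- the Jacobian determinant at `(1/h, s h)`, multiplied by `h ^ 3` -/
def Φ (a₁ a₂ h s : ℝ) : ℝ :=
  9 * (1 - a₁ * h) * (1 - h ^ 2) * ((s - 1) ^ 2 + s ^ 8 * h ^ 8) -
    h ^ 3 * (s * h - a₂) * (3 * (s - 1) ^ 2 * (4 * s - 1) + s ^ 2 * h ^ 2 * (9 - 6 * s) +
      2 * s ^ 9 * h ^ 8)

lemma exists_root (a₁ a₂ : ℝ) : ∃ σ : ℝ, |σ| = 1 ∧ ∀ᶠ ε in 𝓝[>] (0 : ℝ),
    ∃ s ∈ Set.Icc (1 : ℝ) 2, Φ a₁ a₂ (σ * ε) s = 0 := by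
  have key : ∀ σ : ℝ, (∀ᶠ ε in 𝓝[>] (0 : ℝ), Φ a₁ a₂ (σ * ε) 1 < 0) →
      ∀ᶠ ε in 𝓝[>] (0 : ℝ), ∃ s ∈ Set.Icc (1 : ℝ) 2, Φ a₁ a₂ (σ * ε) s = 0 := by
    intro σ h1
    have h2 : ∀ᶠ ε in 𝓝[>] (0 : ℝ), 0 < Φ a₁ a₂ (σ * ε) 2 := by
      have hc : Continuous fun ε : ℝ => Φ a₁ a₂ (σ * ε) 2 := by unfold Φ; fun_prop
      have h3 : (0 : ℝ) < Φ a₁ a₂ (σ * 0) 2 := by unfold Φ; norm_num
      exact (hc.continuousAt.eventually (lt_mem_nhds h3)).filter_mono nhdsWithin_le_nhds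
    filter_upwards [h1, h2] with ε h3 h4
    have hc : Continuous fun s : ℝ => Φ a₁ a₂ (σ * ε) s := by unfold Φ; fun_prop
    obtain ⟨s, hs, hs2⟩ := intermediate_value_Icc (show (1 : ℝ) ≤ 2 by norm_num) hc.continuousOn
      (show (0 : ℝ) ∈ Set.Icc _ _ from ⟨h3.le, h4.le⟩)
    exact ⟨s, hs, hs2⟩
  have hfac : ∀ h : ℝ, Φ a₁ a₂ h 1 = h ^ 5 *
      (9 * (1 - a₁ * h) * (1 - h ^ 2) * h ^ 3 - (h - a₂) * (3 + 2 * h ^ 6)) := by
    intro h; unfold Φ; ring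
  rcases lt_trichotomy a₂ 0 with h | h | h
  · refine ⟨1, abs_one, key 1 ?_⟩
    have hc : Continuous fun e : ℝ =>
        9 * (1 - a₁ * e) * (1 - e ^ 2) * e ^ 3 - (e - a₂) * (3 + 2 * e ^ 6) := by fun_prop
    have h00 : 9 * (1 - a₁ * (0 : ℝ)) * (1 - (0 : ℝ) ^ 2) * (0 : ℝ) ^ 3 -
        ((0 : ℝ) - a₂) * (3 + 2 * (0 : ℝ) ^ 6) < 0 := by norm_num; linarith
    have h3 := (hc.continuousAt (x := 0)).eventually (gt_mem_nhds h00)
    filter_upwards [h3.filter_mono nhdsWithin_le_nhds, self_mem_nhdsWithin] with ε h4 h5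
    rw [one_mul, hfac]
    have h6 : 0 < ε := h5
    exact mul_neg_of_pos_of_neg (by positivity) h4
  · refine ⟨1, abs_one, key 1 ?_⟩
    have hc : Continuous fun e : ℝ =>
        9 * (1 - a₁ * e) * (1 - e ^ 2) * e ^ 2 - (3 + 2 * e ^ 6) := by fun_prop
    have h00 : 9 * (1 - a₁ * (0 : ℝ)) * (1 - (0 : ℝ) ^ 2) * (0 : ℝ) ^ 2 -
        (3 + 2 * (0 : ℝ) ^ 6) < 0 := by norm_num
    have h3 := (hc.continuousAt (x := 0)).eventually (gt_mem_nhds h00)
    filter_upwards [h3.filter_mono nhdsWithin_le_nhds, self_mem_nhdsWithin] with ε h4 h5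
    rw [one_mul, hfac, h]
    have h6 : 0 < ε := h5
    have h7 : 9 * (1 - a₁ * ε) * (1 - ε ^ 2) * ε ^ 3 - (ε - 0) * (3 + 2 * ε ^ 6) =
        ε * (9 * (1 - a₁ * ε) * (1 - ε ^ 2) * ε ^ 2 - (3 + 2 * ε ^ 6)) := by ring
    rw [h7]
    exact mul_neg_of_pos_of_neg (by positivity) (mul_neg_of_pos_of_neg h6 h4)
  · refine ⟨-1, by simp, key (-1) ?_⟩
    have hc : Continuous fun e : ℝ =>
        9 * (1 - a₁ * (-1 * e)) * (1 - (-1 * e) ^ 2) * (-1 * e) ^ 3 -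
          ((-1 * e) - a₂) * (3 + 2 * (-1 * e) ^ 6) := by fun_prop
    have h00 : 0 < 9 * (1 - a₁ * (-1 * (0 : ℝ))) * (1 - (-1 * (0 : ℝ)) ^ 2) * (-1 * (0 : ℝ)) ^ 3 -
          ((-1 * (0 : ℝ)) - a₂) * (3 + 2 * (-1 * (0 : ℝ)) ^ 6) := by norm_num; linarith
    have h3 := (hc.continuousAt (x := 0)).eventually (lt_mem_nhds h00)
    filter_upwards [h3.filter_mono nhdsWithin_le_nhds, self_mem_nhdsWithin] with ε h4 h5
    rw [hfac]
    have h6 : 0 < ε := h5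
    have h7 : (-1 * ε) ^ 5 < 0 := by
      have : (-1 * ε) ^ 5 = -(ε ^ 5) := by ring
      rw [this]
      have : 0 < ε ^ 5 := by positivity
      linarith
    exact mul_neg_of_neg_of_pos h7 h4

lemma not_li {g w : Fin 2 → ℝ} (h : w 0 * g 1 = w 1 * g 0) :
    ¬ LinearIndependent ℝ ![g, w] := by
  intro hli
  rw [LinearIndependent.pair_iff] at hli
  have h1 := hli (w 0) (-g 0) (by
    funext i; fin_cases i
    · simp; ring
    · simp; linarith)
  have h2 := hli (w 1) (-g 1) (by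
    funext i; fin_cases i
    · simp; linarith
    · simp; ring)
  have h3 := hli 1 0 (by
    funext i; fin_cases i
    · simp; linarith [h1.2]
    · simp; linarith [h2.2])
  exact one_ne_zero h3.1

lemma root_mem (a : Fin 2 → ℝ) {h s : ℝ} (hh : h ≠ 0) (hr : Φ (a 0) (a 1) h s = 0) :
    (![1 / h, s * h] : Fin 2 → ℝ) ∈ milnorSet P a := by
  apply not_li
  rw [grad0, grad1]
  change (1 / h - a 0) * (9 * ((1 / h) ^ 2 - 1) * (((1 / h) * (s * h) - 1) ^ 2 + (s * h) ^ 8)) =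
    (s * h - a 1) * (2 * (1 / h) * G (1 / h) (s * h) +
      ((1 / h) ^ 2 - 1) * (6 * (1 / h) * (s * h) ^ 3 - 9 * (s * h) ^ 2) - 3)
  unfold Φ at hr
  unfold G
  have h3 : h ^ 3 ≠ 0 := pow_ne_zero _ hh
  rw [← sub_eq_zero]
  have : h ^ 3 * ((1 / h - a 0) * (9 * ((1 / h) ^ 2 - 1) *
      (((1 / h) * (s * h) - 1) ^ 2 + (s * h) ^ 8)) -
    (s * h - a 1) * (2 * (1 / h) * ((s * h) ^ 9 + 3 * (1 / h) ^ 2 * (s * h) ^ 3 -
      9 * (1 / h) * (s * h) ^ 2 + 9 * (s * h)) +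
      ((1 / h) ^ 2 - 1) * (6 * (1 / h) * (s * h) ^ 3 - 9 * (s * h) ^ 2) - 3)) = 0 := by
    rw [← hr]
    field_simp
    ring
  exact (mul_eq_zero.1 this).resolve_left h3

lemma eval_root {h s : ℝ} (hh : h ≠ 0) : eval ![1 / h, s * h] P =
    3 * ((s - 1) ^ 3 / h) - 3 * h * ((s - 1) ^ 3 + 1) + s ^ 9 * h ^ 7 - s ^ 9 * h ^ 9 := by
  rw [eval_P]
  change ((1 / h) ^ 2 - 1) * G (1 / h) (s * h) - 3 * (1 / h) = _
  unfold G
  field_simp
  ring

lemma eval_bound (a₁ a₂ : ℝ) : ∃ C : ℝ, 0 ≤ C ∧ ∀ h s : ℝ, h ≠ 0 → |h| ≤ 1 →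
    1 / 2 ≤ (1 - a₁ * h) * (1 - h ^ 2) → s ∈ Set.Icc (1 : ℝ) 2 → Φ a₁ a₂ h s = 0 →
    |eval ![1 / h, s * h] P| ≤ C * |h| := by
  set M : ℝ := (2 + |a₂|) * 1057 * (2 / 9) with hM
  have hM0 : 0 ≤ M := by positivity
  refine ⟨3 * M + 6 + 512 + 512, by positivity, ?_⟩
  intro h s hh hh1 hlow hs hr
  have habs : 0 < |h| := abs_pos.2 hh
  obtain ⟨hs1, hs2⟩ := hs
  have hs0 : 0 ≤ s := by linarith
  have hsm : 0 ≤ s - 1 := by linarith
  have hsm1 : s - 1 ≤ 1 := by linarith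
  have p2 : |h| ^ 2 ≤ 1 := pow_le_one₀ habs.le hh1
  have p8 : |h| ^ 8 ≤ 1 := pow_le_one₀ habs.le hh1
  have s9 : s ^ 9 ≤ 512 := by
    calc s ^ 9 ≤ 2 ^ 9 := by gcongr
      _ = 512 := by norm_num
  -- the bracket
  set Br := 3 * (s - 1) ^ 2 * (4 * s - 1) + s ^ 2 * h ^ 2 * (9 - 6 * s) + 2 * s ^ 9 * h ^ 8 with hBr
  have hBrb : |Br| ≤ 1057 := by
    have b1 : |3 * (s - 1) ^ 2 * (4 * s - 1)| ≤ 21 := by
      rw [abs_of_nonneg (by have : 0 ≤ 4 * s - 1 := by linarith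
                            positivity)]
      have e1 : (s - 1) ^ 2 ≤ 1 := pow_le_one₀ hsm hsm1
      have e2 : 4 * s - 1 ≤ 7 := by linarith
      have e3 : 0 ≤ (s - 1) ^ 2 := sq_nonneg _
      have e4 : 0 ≤ 4 * s - 1 := by linarith
      calc 3 * (s - 1) ^ 2 * (4 * s - 1) ≤ 3 * 1 * 7 := by gcongr
        _ = 21 := by norm_num
    have b2 : |s ^ 2 * h ^ 2 * (9 - 6 * s)| ≤ 12 := by
      rw [abs_mul, abs_mul, abs_of_nonneg (sq_nonneg s), abs_pow]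
      have e1 : s ^ 2 ≤ 4 := by nlinarith
      have e2 : |9 - 6 * s| ≤ 3 := by rw [abs_le]; constructor <;> linarith
      calc s ^ 2 * |h| ^ 2 * |9 - 6 * s| ≤ 4 * 1 * 3 := by gcongr
        _ = 12 := by norm_num
    have b3 : |2 * s ^ 9 * h ^ 8| ≤ 1024 := by
      rw [abs_mul, abs_mul, abs_pow, abs_pow, abs_of_nonneg hs0, abs_of_nonneg (by norm_num : (0 : ℝ) ≤ 2)]
      calc 2 * s ^ 9 * |h| ^ 8 ≤ 2 * 512 * 1 := by gcongr
        _ = 1024 := by norm_num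
    calc |Br| ≤ |3 * (s - 1) ^ 2 * (4 * s - 1) + s ^ 2 * h ^ 2 * (9 - 6 * s)| +
          |2 * s ^ 9 * h ^ 8| := abs_add_le _ _
      _ ≤ (|3 * (s - 1) ^ 2 * (4 * s - 1)| + |s ^ 2 * h ^ 2 * (9 - 6 * s)|) +
          |2 * s ^ 9 * h ^ 8| := by gcongr; exact abs_add_le _ _
      _ ≤ 1057 := by linarith
  have hsq : (s - 1) ^ 2 ≤ M * |h| ^ 3 := by
    have e1 : 9 * ((1 - a₁ * h) * (1 - h ^ 2)) * ((s - 1) ^ 2 + s ^ 8 * h ^ 8) =
        h ^ 3 * (s * h - a₂) * Br := by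
      have := hr
      unfold Φ at this
      linear_combination this
    have e2 : 0 ≤ s ^ 8 * h ^ 8 := by positivity
    have e3 : 9 * (1 / 2) * (s - 1) ^ 2 ≤
        9 * ((1 - a₁ * h) * (1 - h ^ 2)) * ((s - 1) ^ 2 + s ^ 8 * h ^ 8) := by
      have e4 : 0 ≤ (s - 1) ^ 2 := sq_nonneg _
      gcongr
      linarith
    have e5 : h ^ 3 * (s * h - a₂) * Br ≤ |h| ^ 3 * (2 + |a₂|) * 1057 := by
      calc h ^ 3 * (s * h - a₂) * Br ≤ |h ^ 3 * (s * h - a₂) * Br| := le_abs_self _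
        _ = |h| ^ 3 * |s * h - a₂| * |Br| := by rw [abs_mul, abs_mul, abs_pow]
        _ ≤ |h| ^ 3 * (2 + |a₂|) * 1057 := by
          gcongr
          calc |s * h - a₂| ≤ |s * h| + |a₂| := abs_sub _ _
            _ = s * |h| + |a₂| := by rw [abs_mul, abs_of_nonneg hs0]
            _ ≤ 2 * 1 + |a₂| := by gcongr
            _ = 2 + |a₂| := by ring
    rw [hM]
    linarith
  have hcube : |(s - 1) ^ 3 / h| ≤ M * |h| := by
    rw [abs_div, abs_pow, abs_of_nonneg hsm, div_le_iff₀ habs]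
    calc (s - 1) ^ 3 = (s - 1) * (s - 1) ^ 2 := by ring
      _ ≤ 1 * (M * |h| ^ 3) := by gcongr
      _ = M * |h| * |h| * |h| := by ring
      _ ≤ M * |h| * |h| * 1 := by gcongr
      _ = M * |h| * |h| := by ring
  rw [eval_root hh]
  have t1 : |3 * ((s - 1) ^ 3 / h)| ≤ 3 * M * |h| := by
    rw [abs_mul, abs_of_nonneg (by norm_num : (0 : ℝ) ≤ 3)]
    linarith
  have t2 : |3 * h * ((s - 1) ^ 3 + 1)| ≤ 6 * |h| := by
    have e1 : (s - 1) ^ 3 ≤ 1 := pow_le_one₀ hsm hsm1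
    have e2 : 0 ≤ (s - 1) ^ 3 := by positivity
    rw [abs_mul, abs_mul, abs_of_nonneg (by norm_num : (0 : ℝ) ≤ 3),
      abs_of_nonneg (by linarith : 0 ≤ (s - 1) ^ 3 + 1)]
    nlinarith
  have t3 : |s ^ 9 * h ^ 7| ≤ 512 * |h| := by
    rw [abs_mul, abs_pow, abs_pow, abs_of_nonneg hs0]
    have e1 : |h| ^ 7 ≤ |h| := by
      calc |h| ^ 7 = |h| ^ 6 * |h| := by ring
        _ ≤ 1 * |h| := by gcongr; exact pow_le_one₀ habs.le hh1
        _ = |h| := one_mul _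
    gcongr
  have t4 : |s ^ 9 * h ^ 9| ≤ 512 * |h| := by
    rw [abs_mul, abs_pow, abs_pow, abs_of_nonneg hs0]
    have e1 : |h| ^ 9 ≤ |h| := by
      calc |h| ^ 9 = |h| ^ 8 * |h| := by ring
        _ ≤ 1 * |h| := by gcongr
        _ = |h| := one_mul _
    gcongr
  calc |3 * ((s - 1) ^ 3 / h) - 3 * h * ((s - 1) ^ 3 + 1) + s ^ 9 * h ^ 7 - s ^ 9 * h ^ 9|
      ≤ |3 * ((s - 1) ^ 3 / h) - 3 * h * ((s - 1) ^ 3 + 1) + s ^ 9 * h ^ 7| +
        |s ^ 9 * h ^ 9| := abs_sub _ _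
    _ ≤ (|3 * ((s - 1) ^ 3 / h) - 3 * h * ((s - 1) ^ 3 + 1)| + |s ^ 9 * h ^ 7|) +
        |s ^ 9 * h ^ 9| := by gcongr; exact abs_add_le _ _
    _ ≤ ((|3 * ((s - 1) ^ 3 / h)| + |3 * h * ((s - 1) ^ 3 + 1)|) + |s ^ 9 * h ^ 7|) +
        |s ^ 9 * h ^ 9| := by gcongr; exact abs_sub _ _
    _ ≤ (3 * M + 6 + 512 + 512) * |h| := by linarith

theorem zero_mem (a : Fin 2 → ℝ) : (0 : ℝ) ∈ asymptoticValues P a := by
  obtain ⟨σ, hσ, hev⟩ := exists_root (a 0) (a 1)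
  obtain ⟨C, hC, hb⟩ := eval_bound (a 0) (a 1)
  have hlow : ∀ᶠ ε in 𝓝[>] (0 : ℝ),
      1 / 2 < (1 - a 0 * (σ * ε)) * (1 - (σ * ε) ^ 2) := by
    have hc : Continuous fun ε : ℝ => (1 - a 0 * (σ * ε)) * (1 - (σ * ε) ^ 2) := by fun_prop
    exact ((hc.continuousAt (x := 0)).eventually
      (lt_mem_nhds (a := 1 / 2) (by norm_num))).filter_mono nhdsWithin_le_nhds
  have hle : ∀ᶠ ε in 𝓝[>] (0 : ℝ), ε ≤ 1 :=
    (eventually_le_nhds one_pos).filter_mono nhdsWithin_le_nhds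
  have hall := (hev.and hlow).and hle
  have hseq : Tendsto (fun n : ℕ => 1 / ((n : ℝ) + 1)) atTop (𝓝[>] 0) := by
    rw [tendsto_nhdsWithin_iff]
    exact ⟨tendsto_one_div_add_atTop_nhds_zero_nat,
      Eventually.of_forall fun n => by
        change (0 : ℝ) < 1 / ((n : ℝ) + 1)
        positivity⟩
  obtain ⟨N, hN⟩ := eventually_atTop.1 (hseq.eventually hall)
  have hchoose : ∀ n : ℕ, ∃ s ∈ Set.Icc (1 : ℝ) 2,
      Φ (a 0) (a 1) (σ * (1 / (((n + N : ℕ) : ℝ) + 1))) s = 0 := fun n =>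
    (hN (n + N) (by omega)).1.1
  choose s hs hΦ using hchoose
  set h : ℕ → ℝ := fun n => σ * (1 / (((n + N : ℕ) : ℝ) + 1)) with hh
  have hσ0 : σ ≠ 0 := by rintro rfl; simp at hσ
  have hh0 : ∀ n, h n ≠ 0 := fun n => by
    simp only [hh]
    positivity
  have habs : ∀ n, |h n| = 1 / (((n + N : ℕ) : ℝ) + 1) := fun n => by
    simp only [hh]
    rw [abs_mul, hσ, one_mul, abs_of_pos (by positivity)]
  refine ⟨fun n => ![1 / h n, s n * h n], fun n => root_mem a (hh0 n) (hΦ n), ?_, ?_⟩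
  · have h1 : ∀ n : ℕ, (n : ℝ) ≤ ‖(![1 / h n, s n * h n] : Fin 2 → ℝ)‖ := by
      intro n
      have h2 := norm_le_pi_norm (![1 / h n, s n * h n] : Fin 2 → ℝ) 0
      have h3 : ‖(![1 / h n, s n * h n] : Fin 2 → ℝ) 0‖ = ((n + N : ℕ) : ℝ) + 1 := by
        change ‖1 / h n‖ = _
        rw [Real.norm_eq_abs, abs_div, abs_one, habs, one_div_one_div]
      rw [h3] at h2
      push_cast at h2
      have : (0 : ℝ) ≤ N := Nat.cast_nonneg N
      linarith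
    exact tendsto_atTop_mono h1 tendsto_natCast_atTop_atTop
  · rw [tendsto_zero_iff_norm_tendsto_zero]
    have h4 : Tendsto (fun n : ℕ => C * |h n|) atTop (𝓝 0) := by
      have h5 : Tendsto (fun n : ℕ => C * (1 / (((n + N : ℕ) : ℝ) + 1))) atTop (𝓝 (C * 0)) :=
        (tendsto_one_div_add_atTop_nhds_zero_nat.comp (tendsto_add_atTop_nat N)).const_mul C
      rw [mul_zero] at h5
      refine h5.congr fun n => ?_
      rw [habs]
    refine squeeze_zero (fun n => norm_nonneg _) (fun n => ?_) h4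
    rw [Real.norm_eq_abs]
    have hNn := hN (n + N) (by omega)
    refine hb (h n) (s n) (hh0 n) ?_ (le_of_lt hNn.1.2) (hs n) (hΦ n)
    rw [habs]
    exact hNn.2

/-- For `f = (x² - 1)(y⁹ + 3 x² y³ - 9 x y² + 9 y) - 3 x` the value `0` belongs to `S_a(f)` for every
centre `a`, but it is not a bifurcation value at infinity; so `B_∞(f) ≠ S_∞(f)`. -/
theorem result :
    ∃ f : MvPolynomial (Fin 2) ℝ,
      (∀ a : Fin 2 → ℝ, (0 : ℝ) ∈ asymptoticValues f a) ∧ (0 : ℝ) ∉ bifurcationValues f ∧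
      bifurcationValues f ≠ asymptoticValuesAll f := by
  have h0 : (0 : ℝ) ∉ bifurcationValues P := fun h => h trivial_zero
  refine ⟨P, zero_mem, h0, fun heq => h0 ?_⟩
  rw [heq]
  exact Set.mem_iInter.2 zero_mem

end Pool.Agent.Results.MP_025584_ag.RegularAsymptoticValue
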